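import Pool.Agent.H84.S4.Ex

/-!
# Semisimplicity of Frobenius on the second cohomology of elliptic surfaces with four torsion sections

Let `κ` be a finite field with `q` elements, `q` odd, and let `X` be the minimal elliptic surface over
the projective line over `κ` with the equation `y ^ 2 = x ^ 3 + U x ^ 2 + V x`; `U` and `V` are forms
in two variables of degree `2 m` and `4 m`. The section `(0, 0)` has order two. The geometric genus is
`m - 1`. The second cohomology of `X` (any `ℓ`-adic cohomology, coefficients extended to an
algebraically closed field `E` of characteristic zero) is the sum of the space `T` spanned by the
classes of the zero section and of the components of the fibres, which are multiplied by `q` and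
permuted by the Frobenius (`IsPermuted`), and of its orthogonal complement `W` (`IsCohomology`).

**Theorem.** (1) Let `X` have four torsion sections (`HasFour`): it has the equation

* `y ^ 2 = x ^ 3 + (r ^ 2 - 2 s) x ^ 2 + s ^ 2 x` with the section `(s, r s)` of order four, where `r` and
  `s` are forms of degree `m` and `2 m` without common zeros, or
* `y ^ 2 = x (x + D a) (x + D b)`, a twist by a form `D` with simple zeros of the surface
  `y ^ 2 = x (x + a) (x + b)`, where `a` and `b` are forms of the same degree without common zeros.

Suppose that (`IsAdmissible`) the degrees of the points of the projective line with nodal fibres are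
not divisible by four, that there are cusps only over points of odd degree, and only if `q = 3`
modulo four, and that the odd parts of the degrees of the points with singular fibres are pairwise
coprime, with one exception: two nodes over points of odd degree are allowed to have degrees with common
factors if the number of smooth points (over the residue field) is divisible by four for exactly one
of them. Count the singular fibres with the weight `1` for a node of odd degree and `2` for the other
ones. If the sum of the weights is at most six, or if it is at most eight and the number of the nodes
of even degree with a number of smooth points not divisible by four is odd, then the Frobenius is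
semisimple on the second cohomology of `X`. If it is at most five, then the eigenvalues of the
Frobenius on `W` are even pairwise different.

(2) Let `X` be any surface as above, with arbitrary singular fibres (with section `(0, 0)` of order
two). Let `R` be the rank of the group of sections, or the dimension of any nondegenerate space of
eigenvectors for the eigenvalue `q` in `W`, for instance `0`. If the sum over the singular fibres of
`2 ^ v`, where `v` is the exponent of two in the degree, is at most `6 + R`, where cusps are counted
twice, then the eigenvalue `q` of the Frobenius is semisimple. (The degrees need not be coprime.)

(3) Two families of surfaces of unbounded geometric genus for which the eigenvalues on `W` are pairwise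
different by (1):

* `y ^ 2 = x (x - 1) (x - f)` if `q = 3` modulo four and `f` and `f - 1` are irreducible
  polynomials of odd degree (for instance `q = 7` and `f = t ^ (3 ^ k) - 2`, of geometric genus
  `(3 ^ k - 1) / 2`);
* `y ^ 2 = x (x ^ 2 + (t ^ (2 n) - 2 c) x + c ^ 2)` if `n` is odd and `t ^ (2 n) - 4 c` is
  irreducible (for instance, if all prime factors of `n` divide `q - 1` and `4 c` generates the group
  of units of `κ`), of geometric genus `n - 1`.

The proof. All smooth fibres over an extension have a number of points divisible by four; so the
`L`-function is known modulo four, not only modulo two: up to the factors for `P ^ 1`, the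
characteristic polynomial is the product of `X ^ d - 1` or `X ^ d + 1` over the nodes, where the sign is
given by the number of smooth points, and of `X ^ (2 d) - 1` over the cusps, with the exceptions modulo
four computed in the file. Modulo two there are now many multiple roots, since the degrees may be even
and since the degrees of two nodes may be the same. A root of unity of odd order `≠ 1` is a root at
most twice; if it is a double root, then the polynomial modulo four is not the square of a polynomial
near it, and this implies, by the theorem of Eisenstein and Dumas, that the two roots are different.
The roots reducing to one are treated with the similitude: a unipotent isometry of a nondegenerate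
space of dimension two is trivial, and the eigenvalues `β` and `q ^ 2 / β` have the same
multiplicities. The congruence for the `L`-function modulo the order of a group of torsion sections is
due to C. Hall.
-/

set_option autoImplicit false

namespace Pool.Agent.Results.MP_1fe969_ag.FourTorsionSections

open Polynomial Module Pool.Agent.H84.S4
open Pool.Agent.R942.ES (IsPermuted IsEigenSpace total semisimple_permuted semisimple_prod tate_prod)

/-- **Semisimplicity of Frobenius on elliptic surfaces with four torsion sections.** -/
theorem result (κ : Type) [Field κ] [Finite κ] (hq : Odd (Nat.card κ)) :
    (∀ (S : Surface κ) (E : Type) [Field E] [CharZero E] [IsAlgClosed E]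
      (T : Type) [AddCommGroup T] [Module E T] [FiniteDimensional E T] (Ψ : Module.End E T)
      (W : Type) [AddCommGroup W] [Module E W] [FiniteDimensional E W] (Φ : Module.End E W)
      (B : W →ₗ[E] W →ₗ[E] E), IsPermuted (Nat.card κ) Ψ → S.IsCohomology Φ B →
      (S.HasFour → S.IsAdmissible → (total Ψ Φ).IsSemisimple) ∧
      (S.HasFour → S.IsAdmissible → ∑ᶠ w : Place κ, S.weight w ≤ 5 → Φ.charpoly.Separable) ∧
      (S.IsMinimal → ∀ N : Submodule E W, IsEigenSpace (Nat.card κ) Φ B N →
        S.twoWeight ≤ 6 + finrank E N →
        (total Ψ Φ).maxGenEigenspace (Nat.card κ) = (total Ψ Φ).eigenspace (Nat.card κ))) ∧
    (∀ f : κ[X], Nat.card κ % 4 = 3 → Irreducible f → Irreducible (f - 1) → Odd f.natDegree →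
      (legendre f).HasFour ∧ (legendre f).IsAdmissible ∧
        ∑ᶠ w : Place κ, (legendre f).weight w ≤ 5) ∧
    ∀ (n : ℕ) (c : κ), Odd n → Irreducible ((X ^ n) ^ 2 - 4 * C c : κ[X]) →
      (binomial n c).HasFour ∧ (binomial n c).IsAdmissible ∧
        ∑ᶠ w : Place κ, (binomial n c).weight w ≤ 5 := by
  refine ⟨?_, fun f h h1 h2 h3 => legendre_admissible h h1 h2 h3,
    fun n c h1 h2 => binomial_admissible hq h1 h2⟩
  intro S E _ _ _ T _ _ _ Ψ W _ _ _ Φ B hΨ hC
  have hT := semisimple_permuted hq.pos.ne' hΨ
  exact ⟨fun h1 h2 => semisimple_prod hT (Surface.semisimple_of_four hq h1 h2 hC),
    fun h1 h2 h3 => Surface.simple_of_four hq h1 h2 hC h3,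
    fun h1 N hN h3 => tate_prod hT (Surface.tate_of_two hq h1 hC N hN h3)⟩

end Pool.Agent.Results.MP_1fe969_ag.FourTorsionSections
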